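import Pool.Agent.Helper33.UW.Lin2
import Pool.Agent.Helper31.SB.Mach
import Pool.Agent.Helper53.UW.Ram

/-!
# Decompressors on the words `F w`
-/

namespace Pool.Agent.Helper33.UW

open Pool.Agent.Helper65.LinSpace Pool.Agent.Helper78.Mpc Pool.Agent.Helper28.Ram
open Pool.Agent.Helper81.Sus2 (Decomp)
open Pool.Agent.Helper92.RE (LD adr1 ls_adr1 lt_eq lett_le)
open Pool.Agent.Helper81.RP (wd wf num_wd wd_num length_wd hd tl ls_hd ls_tl hd_eq tl_eq ls_pair
  length_wd_le pair_lt wd_one head_wd linComp_wf lett)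
open Pool.Agent.Helper31.Conv (ks kO xO kO_ks xO_ks ks_mod ls_ks ls_kO ls_xO num_toList ks_pos
  ks_even wd_pred bits_wd wd_pred' num_lt bits_length_le lt_two_pow_log length_ks codeO_le)
open Pool.Agent.Helper31.TMS (bval_bits)
open Pool.Agent.Helper31.SB (num_eq_bval lett_code)

/-! ### Numbers of words -/

/-- The value of a word, from its number. -/
def bvl (x : ℕ) : ℕ := x - 2 ^ Nat.log 2 x

theorem bvl_num (u : List Bool) : bvl (num u) = bval u := by
  unfold bvl
  rw [log_num, num_eq_bval]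
  omega

theorem ls_bvl {α : Type} [Ctx α] {x : α → ℕ} (h : LS x) : LS (fun a => bvl (x a)) := by
  unfold bvl
  exact LS.sub h (LS.pow_log h)

/-- The seven letters of the kind `q`, followed by the word `u`. -/
noncomputable def kw (q : ℕ) (u : List Bool) : List Bool := wd (ks q (num u))

theorem num_kw (q : ℕ) (u : List Bool) : num (kw q u) = ks q (num u) := num_wd (ks_pos (num_pos u))

theorem kw_append {q : ℕ} (hq : q < 32) (u : List Bool) : kw q u = wd (128 + 4 * q) ++ u := by
  apply Pool.Agent.Helper78.Avg.num_injective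
  have h0 : ∃ l : List Bool, l.length = 7 ∧ num l = 128 + 4 * q := by
    refine ⟨[false, false, q.testBit 0, q.testBit 1, q.testBit 2, q.testBit 3, q.testBit 4], rfl,
      ?_⟩
    interval_cases q <;> decide
  obtain ⟨l, hl, hn⟩ := h0
  have h1 : wd (128 + 4 * q) = l := by rw [← hn, wd_num]
  rw [num_kw, h1]
  have h2 : ∀ (l : List Bool) (u : List Bool), num (l ++ u) = num l - 2 ^ l.length +
      2 ^ l.length * num u := by
    intro l u
    induction l with
    | nil =>
      show num u = 1 - 2 ^ 0 + 2 ^ 0 * num u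
      omega
    | cons b l ih =>
      show b.toNat + 2 * num (l ++ u) = b.toNat + 2 * num l - 2 ^ (l.length + 1) +
        2 ^ (l.length + 1) * num u
      have h3 := num_eq_bval l
      rw [ih, pow_succ]
      have h4 : 2 ^ l.length * 2 * num u = 2 * (2 ^ l.length * num u) := by ring
      rw [h4]
      omega
  rw [h2, hl, hn]
  unfold ks
  omega

/-! ### The functions of the decompressor -/

variable (D : LD)

/-- The first part of the next state; `lw` is the code of the letter of the first word. -/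
def nH (σ lw : ℕ) : ℕ :=
  ifz (σ % 4)
    (ifz (kO σ)
      (ifz lw (ks 1 (catN (sdN ((xO σ - 1).unpair.2 + 1)) (2 * (xO σ - 1).unpair.1)))
        (ks 0 (1 + Nat.pair (xO σ - 1).unpair.1 ((xO σ - 1).unpair.2 + 1))))
      (ifz (kO σ - 1)
        (ifz (tl (xO σ) % 2) (catN 136 (catN (sdN (hd (xO σ))) (sdN (tl (xO σ)))))
          (ifz (tl (xO σ) - 1) (catN 136 (catN (sdN (hd (xO σ))) (sdN (tl (xO σ)))))
            (tl (xO σ))))
        (ifz (kO σ - 2)
          (ks (3 + D.lt (hd (xO σ) - 1) (bvl (tl (tl (xO σ)))) lw) (xO σ))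
          (catN 132 (sdN (hd (xO σ)))))))
    (ks 0 (1 + Nat.pair (σ / 2) 0))

/-- The argument of the function `next`. -/
def nA (σ ly lz : ℕ) : ℕ :=
  catN (sdN (hd (tl (xO σ)))) (catN (sdN (kO σ - 3 + 1)) (catN (sdN (ly + 1)) (lz + 1)))

/-- The argument of the function `addr`. -/
def nB (σ : ℕ) : ℕ := tl (xO σ)

/-- `0` if the next state consists of the first part only, `1` if the function `addr` is used, and
`2` if the function `next` is used. -/
def nS (σ : ℕ) : ℕ :=
  ifz (σ % 4) (ifz (kO σ) 0 (ifz (kO σ - 1) (ifz (tl (xO σ) % 2) 1 (ifz (tl (xO σ) - 1) 1 0))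
    (ifz (kO σ - 2) 0 2))) 0

/-- The address. -/
def aF (σ : ℕ) : ℕ :=
  ifz (σ % 4) (ifz (kO σ) (bitsN (xO σ - 1).unpair.2) (ifz (kO σ - 1) 1
    (ifz (kO σ - 2) (bitsN (adr1 D (hd (xO σ) - 1) (bvl (tl (tl (xO σ)))))) (tl (tl (xO σ)))))) 1

section

variable {α : Type} [Ctx α]

theorem ls_hd' {f : α → ℕ} (h : LS f) : LS (fun a => hd (f a)) := LS.comp (g := hd) ls_hd h

theorem ls_tl' {f : α → ℕ} (h : LS f) : LS (fun a => tl (f a)) := LS.comp (g := tl) ls_tl h

theorem ls_nH {σ lw : α → ℕ} (hσ : LS σ) (hw : LS lw) : LS (fun z => nH D (σ z) (lw z)) := by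
  have hk := ls_kO hσ
  have hx := ls_xO hσ
  have hh := ls_hd' hx
  have ht := ls_tl' hx
  have htt := ls_tl' ht
  have hb := ls_bvl htt
  have hu1 : LS (fun z => (xO (σ z) - 1).unpair.1) := by fun_prop
  have hu2 : LS (fun z => (xO (σ z) - 1).unpair.2) := by fun_prop
  have g1 := ls_ks (LS.const 1)
    (X := fun z => catN (sdN ((xO (σ z) - 1).unpair.2 + 1)) (2 * (xO (σ z) - 1).unpair.1))
    (by fun_prop)
  have p1 := ls_pair hu1 (LS.add hu2 (LS.const 1))
  have g2 := ls_ks (LS.const 0) (LS.add (LS.const 1) p1)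
  have g3 : LS (fun z => catN 136 (catN (sdN (hd (xO (σ z)))) (sdN (tl (xO (σ z)))))) := by
    fun_prop
  have g4 := D.ls_lt' (n := fun z => hd (xO (σ z)) - 1) (u := fun z => bvl (tl (tl (xO (σ z)))))
    (x := lw) (by fun_prop) hb hw
  have g5 := ls_ks (LS.add (LS.const 3) g4) hx
  have g6 : LS (fun z => catN 132 (sdN (hd (xO (σ z))))) := by fun_prop
  have p2 := ls_pair (f := fun z => σ z / 2) (by fun_prop) (LS.const 0)
  have g7 := ls_ks (LS.const 0) (LS.add (LS.const 1) p2)
  unfold nH
  exact LS.ifz (by fun_prop) (LS.ifz hk (LS.ifz hw g1 g2) (LS.ifz (by fun_prop)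
    (LS.ifz (by fun_prop) g3 (LS.ifz (by fun_prop) g3 ht)) (LS.ifz (by fun_prop) g5 g6))) g7

theorem ls_nA {σ ly lz : α → ℕ} (hσ : LS σ) (hy : LS ly) (hz : LS lz) :
    LS (fun z => nA (σ z) (ly z) (lz z)) := by
  have hk := ls_kO hσ
  have hx := ls_xO hσ
  have ht := ls_hd' (ls_tl' hx)
  unfold nA
  fun_prop

theorem ls_nB {σ : α → ℕ} (hσ : LS σ) : LS (fun z => nB (σ z)) := ls_tl' (ls_xO hσ)

theorem ls_nS {σ : α → ℕ} (hσ : LS σ) : LS (fun z => nS (σ z)) := by
  have hk := ls_kO hσ
  have hx := ls_xO hσ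
  have ht := ls_tl' hx
  unfold nS
  fun_prop

theorem ls_aF {σ : α → ℕ} (hσ : LS σ) : LS (fun z => aF D (σ z)) := by
  have hk := ls_kO hσ
  have hx := ls_xO hσ
  have hh := ls_hd' hx
  have htt := ls_tl' (ls_tl' hx)
  have hb := ls_bvl htt
  have h1 : LS (fun z => bitsN (xO (σ z) - 1).unpair.2) :=
    LS.bitsN (f := fun z => (xO (σ z) - 1).unpair.2) (by fun_prop)
  have h2 := LS.bitsN (ls_adr1 D (n := fun z => hd (xO (σ z)) - 1) (by fun_prop) hb)
  unfold aF
  exact LS.ifz (by fun_prop) (LS.ifz hk h1 (LS.ifz (by fun_prop) (LS.const 1)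
    (LS.ifz (by fun_prop) h2 htt))) (LS.const 1)

end

attribute [local irreducible] hd tl

/-- The first part of the next state. -/
def NH (u : ℕ) : ℕ := nH D (hd u) (hd (tl u) - 1)

/-- The argument of the function `next`. -/
def NA (u : ℕ) : ℕ := nA (hd u) (hd (tl (tl u)) - 1) (tl (tl (tl u)) - 1)

/-- The argument of the function `addr`. -/
def NB (u : ℕ) : ℕ := nB (hd u)

/-- The function which is used. -/
def NS (u : ℕ) : ℕ := nS (hd u)

theorem ls_NH : LS (NH D) := by
  have h1 := ls_hd
  have h2 := ls_tl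
  have h3 : LS (fun u : ℕ => hd (tl u)) := LS.comp (g := hd) h1 h2
  have h7 : LS (fun u : ℕ => hd u) := h1
  have e1 : LS (fun u : ℕ => hd (tl u) - 1) := LS.sub h3 (LS.const 1)
  exact ls_nH D h7 e1

theorem ls_NA : LS NA := by
  have h1 := ls_hd
  have h2 := ls_tl
  have h4 : LS (fun u : ℕ => tl (tl u)) := LS.comp (g := tl) h2 h2
  have h5 : LS (fun u : ℕ => hd (tl (tl u))) := LS.comp (g := hd) h1 h4
  have h6 : LS (fun u : ℕ => tl (tl (tl u))) := LS.comp (g := tl) h2 h4
  have h7 : LS (fun u : ℕ => hd u) := h1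
  have e2 : LS (fun u : ℕ => hd (tl (tl u)) - 1) := LS.sub h5 (LS.const 1)
  have e3 : LS (fun u : ℕ => tl (tl (tl u)) - 1) := LS.sub h6 (LS.const 1)
  exact ls_nA h7 e2 e3

theorem ls_NB : LS NB := by
  have h7 : LS (fun u : ℕ => hd u) := ls_hd
  exact ls_nB h7

theorem ls_NS : LS NS := by
  have h7 : LS (fun u : ℕ => hd u) := ls_hd
  exact ls_nS h7

theorem ls_AF : LS (aF D) := by
  have h : LS (fun u : ℕ => u) := LS.id
  exact ls_aF D h

/-- The function `next` of the decompressor. -/
noncomputable def dN (E : Decomp) (u : List Bool) : List Bool :=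
  wd (NH D (num u) - 1 + 1) ++ if NS (num u) = 0 then [] else if NS (num u) - 1 = 0 then
    E.addr (wd (NB (num u) - 1 + 1)) else E.next (wd (NA (num u) - 1 + 1))

/-- The decompressor. -/
noncomputable def ddc (E : Decomp) : Decomp :=
  ⟨wf (aF D), dN D E, linComp_wf (ls_AF D),
    lincomp_cmb2 E.addr_lin E.next_lin (ls_NH D) ls_NB ls_NA ls_NS⟩

variable (E : Decomp)

/-- The next state. -/
theorem ddc_next (σ : List Bool) (a b z : Option Bool) :
    (ddc D E).next (sd σ ++ (sd a.toList ++ (sd b.toList ++ z.toList))) =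
      wd (nH D (num σ) (codeO a) - 1 + 1) ++
        if nS (num σ) = 0 then [] else if nS (num σ) - 1 = 0 then
          E.addr (wd (nB (num σ) - 1 + 1)) else
          E.next (wd (nA (num σ) (codeO b) (codeO z) - 1 + 1)) := by
  show dN D E _ = _
  unfold dN NH NS NA NB
  simp only [hd_eq, tl_eq, num_toList, Nat.add_sub_cancel]

theorem ddc_addr (σ : List Bool) : (ddc D E).addr σ = wd (aF D (num σ) - 1 + 1) := rfl

/-! ### States -/

/-- The state of the computation of the length. -/
noncomputable def s0 (x n : ℕ) : List Bool := wd (ks 0 (1 + Nat.pair x n))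

/-- The state of the simulation. -/
noncomputable def s1 (n : ℕ) (ε : List Bool) : List Bool := kw 1 (sd (wd (n + 1)) ++ ε)

/-- The states with an address. -/
noncomputable def s2 (q n : ℕ) (ε j : List Bool) : List Bool :=
  kw q (sd (wd (n + 1)) ++ (sd ε ++ j))

theorem num_s0 (x n : ℕ) : num (s0 x n) = ks 0 (1 + Nat.pair x n) :=
  num_wd (ks_pos (by omega))

theorem num_s1 (n : ℕ) (ε : List Bool) : num (s1 n ε) = ks 1 (num (sd (wd (n + 1)) ++ ε)) :=
  num_kw _ _

theorem num_s2 (q n : ℕ) (ε j : List Bool) :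
    num (s2 q n ε j) = ks q (num (sd (wd (n + 1)) ++ (sd ε ++ j))) := num_kw _ _

theorem num_wd' (n : ℕ) : num (wd (n + 1)) = n + 1 := num_wd (Nat.succ_pos n)

theorem wd_catN (u v : List Bool) : wd (catN (num u) (num v)) = u ++ v := by
  rw [catN_num, wd_num]

theorem wd_num' (u : List Bool) : wd (num u - 1 + 1) = u := by
  rw [wd_pred (num_pos _), wd_num]

theorem next_0 {a : Option Bool} (b z : Option Bool) (i : List Bool) (n : ℕ) :
    (ddc D E).next (sd (s0 (num i) n) ++ (sd a.toList ++ (sd b.toList ++ z.toList))) =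
      if a = none then s1 n (false :: i) else s0 (num i) (n + 1) := by
  rw [ddc_next, num_s0]
  have e1 : nS (ks 0 (1 + Nat.pair (num i) n)) = 0 := by
    unfold nS
    rw [ks_mod, ifz_zero, kO_ks (by omega), ifz_zero]
  rw [e1, if_pos rfl, List.append_nil]
  unfold nH
  rw [ks_mod, ifz_zero, kO_ks (by omega), ifz_zero, xO_ks (by omega), Nat.add_sub_cancel_left,
    Nat.unpair_pair]
  rcases a with _ | a
  · rw [if_pos rfl]
    show wd (ifz 0 _ _ - 1 + 1) = _
    rw [ifz_zero]
    have h1 : 2 * num i = num (false :: i) := by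
      show _ = false.toNat + 2 * num i
      rw [Bool.toNat_false, zero_add]
    show wd (ks 1 (catN (sdN (n + 1)) (2 * num i)) - 1 + 1) = _
    rw [h1, ← num_wd' n, sdN_num, catN_num, wd_pred (ks_pos (num_pos _))]
    rfl
  · rw [if_neg (by simp)]
    have h1 : codeO (some a) ≠ 0 := by
      show 1 + a.toNat ≠ 0
      omega
    rw [ifz_ne h1, wd_pred (ks_pos (by omega))]
    rfl

theorem next_1 {ε : List Bool} (hε : ε.head? ≠ some true) (a b z : Option Bool) (n : ℕ) :
    (ddc D E).next (sd (s1 n ε) ++ (sd a.toList ++ (sd b.toList ++ z.toList))) =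
      s2 2 n ε (E.addr ε) := by
  have h0 : ¬(num ε % 2 = 1 ∧ 1 < num ε) := by
    rw [← head_wd (num_pos ε), wd_num]
    exact hε
  rw [ddc_next, num_s1]
  have e1 : nS (ks 1 (num (sd (wd (n + 1)) ++ ε))) = 1 := by
    unfold nS
    rw [ks_mod, ifz_zero, kO_ks (by omega), ifz_ne one_ne_zero, Nat.sub_self, ifz_zero,
      xO_ks (by omega), tl_eq]
    by_cases h1 : num ε % 2 = 0
    · rw [h1, ifz_zero]
    · rw [ifz_ne h1, show num ε - 1 = 0 by omega, ifz_zero]
  have e2 : nH D (ks 1 (num (sd (wd (n + 1)) ++ ε))) (codeO a) =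
      num (wd (128 + 4 * 2) ++ (sd (wd (n + 1)) ++ sd ε)) := by
    unfold nH
    rw [ks_mod, ifz_zero, kO_ks (by omega), ifz_ne one_ne_zero, Nat.sub_self, ifz_zero,
      xO_ks (by omega), tl_eq, hd_eq, sdN_num, sdN_num, catN_num (sd (wd (n + 1)))]
    have h2 : catN 136 (num (sd (wd (n + 1)) ++ sd ε)) =
        num (wd (128 + 4 * 2) ++ (sd (wd (n + 1)) ++ sd ε)) := by
      rw [← catN_num (wd (128 + 4 * 2)), num_wd (n := 128 + 4 * 2) (by norm_num)]
    rw [h2]
    by_cases h1 : num ε % 2 = 0
    · rw [h1, ifz_zero]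
    · rw [ifz_ne h1, show num ε - 1 = 0 by omega, ifz_zero]
  rw [e1, if_neg one_ne_zero, if_pos rfl, e2, wd_num']
  unfold nB
  rw [xO_ks (by omega), tl_eq, wd_num']
  unfold s2
  rw [kw_append (by omega), List.append_assoc, List.append_assoc]

theorem next_1' {ε : List Bool} (hε : ε.head? = some true) (a b z : Option Bool) (n : ℕ) :
    (ddc D E).next (sd (s1 n ε) ++ (sd a.toList ++ (sd b.toList ++ z.toList))) = ε := by
  have h0 : num ε % 2 = 1 ∧ 1 < num ε := by
    rw [← head_wd (num_pos ε), wd_num]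
    exact hε
  rw [ddc_next, num_s1]
  have e1 : nS (ks 1 (num (sd (wd (n + 1)) ++ ε))) = 0 := by
    unfold nS
    rw [ks_mod, ifz_zero, kO_ks (by omega), ifz_ne one_ne_zero, Nat.sub_self, ifz_zero,
      xO_ks (by omega), tl_eq, ifz_ne (by omega), ifz_ne (by omega)]
  have e2 : nH D (ks 1 (num (sd (wd (n + 1)) ++ ε))) (codeO a) = num ε := by
    unfold nH
    rw [ks_mod, ifz_zero, kO_ks (by omega), ifz_ne one_ne_zero, Nat.sub_self, ifz_zero,
      xO_ks (by omega), tl_eq, ifz_ne (by omega), ifz_ne (by omega)]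
  rw [e1, if_pos rfl, e2, wd_num', List.append_nil]

theorem next_2 (a b z : Option Bool) (n : ℕ) (ε j : List Bool) :
    (ddc D E).next (sd (s2 2 n ε j) ++ (sd a.toList ++ (sd b.toList ++ z.toList))) =
      s2 (3 + D.lt n (bval j) (codeO a)) n ε j := by
  rw [ddc_next, num_s2]
  have e1 : nS (ks 2 (num (sd (wd (n + 1)) ++ (sd ε ++ j)))) = 0 := by
    unfold nS
    rw [ks_mod, ifz_zero, kO_ks (by omega), ifz_ne two_ne_zero, ifz_ne (by norm_num),
      Nat.sub_self, ifz_zero]
  rw [e1, if_pos rfl, List.append_nil]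
  unfold nH
  rw [ks_mod, ifz_zero, kO_ks (by omega), ifz_ne two_ne_zero, ifz_ne (by norm_num),
      Nat.sub_self, ifz_zero, xO_ks (by omega), tl_eq, tl_eq, hd_eq, num_wd', bvl_num,
      Nat.add_sub_cancel, wd_pred (ks_pos (num_pos _))]
  rfl

theorem next_3 {r : ℕ} (hr : r ≤ 2) (a b z : Option Bool) (n : ℕ) (ε j : List Bool) :
    (ddc D E).next (sd (s2 (3 + r) n ε j) ++ (sd a.toList ++ (sd b.toList ++ z.toList))) =
      s1 n (E.next (wd (nA (ks (3 + r) (num (sd (wd (n + 1)) ++ (sd ε ++ j))))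
        (codeO b) (codeO z) - 1 + 1))) := by
  rw [ddc_next, num_s2]
  have e1 : nS (ks (3 + r) (num (sd (wd (n + 1)) ++ (sd ε ++ j)))) = 2 := by
    unfold nS
    rw [ks_mod, ifz_zero, kO_ks (by omega), ifz_ne (by omega), ifz_ne (by omega),
      ifz_ne (by omega)]
  have e2 : nH D (ks (3 + r) (num (sd (wd (n + 1)) ++ (sd ε ++ j)))) (codeO a) =
      num (wd (128 + 4 * 1) ++ sd (wd (n + 1))) := by
    unfold nH
    rw [ks_mod, ifz_zero, kO_ks (by omega), ifz_ne (by omega), ifz_ne (by omega),
      ifz_ne (by omega), xO_ks (by omega), hd_eq, sdN_num, ← catN_num (wd (128 + 4 * 1)),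
      num_wd (n := 128 + 4 * 1) (by norm_num)]
  rw [e1, if_neg two_ne_zero, if_neg (by norm_num), e2, wd_num']
  unfold s1
  rw [kw_append (by omega), List.append_assoc]

theorem nA_eq {w' : List Bool} (y d : List Bool) {r k : ℕ} (hr : r = codeO w'[k]?) (n : ℕ)
    (ε j : List Bool) :
    wd (nA (ks (3 + r) (num (sd (wd (n + 1)) ++ (sd ε ++ j)))) (codeO y[k]?) (codeO d[k]?) -
      1 + 1) = sd ε ++ (sd w'[k]?.toList ++ (sd y[k]?.toList ++ d[k]?.toList)) := by
  have hr2 : r ≤ 2 := by
    rw [hr]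
    exact codeO_le _
  unfold nA
  rw [xO_ks (by omega), kO_ks (by omega), tl_eq, hd_eq, show 3 + r - 3 + 1 = r + 1 by omega, hr,
    ← num_toList, ← num_toList, ← num_toList, sdN_num, sdN_num, sdN_num, catN_num, catN_num,
    catN_num, wd_num']

/-! ### Addresses -/

theorem addr_0 (x n : ℕ) : (ddc D E).addr (s0 x n) = n.bits := by
  rw [ddc_addr, num_s0]
  unfold aF
  rw [ks_mod, ifz_zero, kO_ks (by omega), ifz_zero, xO_ks (by omega), Nat.add_sub_cancel_left,
    Nat.unpair_pair, bits_wd]

theorem addr_1 (n : ℕ) (ε : List Bool) : (ddc D E).addr (s1 n ε) = [] := by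
  rw [ddc_addr, num_s1]
  unfold aF
  rw [ks_mod, ifz_zero, kO_ks (by omega), ifz_ne one_ne_zero, Nat.sub_self, ifz_zero]
  exact wd_one

theorem addr_2 (n : ℕ) (ε j : List Bool) :
    (ddc D E).addr (s2 2 n ε j) = (adr1 D n (bval j)).bits := by
  rw [ddc_addr, num_s2]
  unfold aF
  rw [ks_mod, ifz_zero, kO_ks (by omega), ifz_ne two_ne_zero, ifz_ne (by norm_num),
      Nat.sub_self, ifz_zero, xO_ks (by omega), tl_eq, tl_eq, hd_eq, num_wd', bvl_num,
      Nat.add_sub_cancel, bits_wd]

theorem addr_3 {r : ℕ} (hr : r ≤ 2) (n : ℕ) (ε j : List Bool) :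
    (ddc D E).addr (s2 (3 + r) n ε j) = j := by
  rw [ddc_addr, num_s2]
  unfold aF
  rw [ks_mod, ifz_zero, kO_ks (by omega), ifz_ne (by omega), ifz_ne (by omega),
      ifz_ne (by omega), xO_ks (by omega), tl_eq, tl_eq, wd_num']

/-! ### Lengths of states -/

theorem sd_length (u : List Bool) : (sd u).length = 2 * u.length + 1 := by
  induction u with
  | nil => rfl
  | cons b u ih =>
    show (true :: b :: sd u).length = _
    rw [List.length_cons, List.length_cons, ih, List.length_cons]
    ring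

theorem length_kw {q : ℕ} (hq : q < 32) (u : List Bool) : (kw q u).length ≤ u.length + 7 := by
  have h := length_ks hq (num_pos u) (num_lt u)
  unfold kw
  omega

theorem length_wd_succ {n s : ℕ} (h : n < 2 ^ s) : (wd (n + 1)).length ≤ s := by
  refine length_wd_le (Nat.succ_pos n) ?_
  rw [pow_succ]
  omega

theorem length_s1 {n s : ℕ} (h : n < 2 ^ s) (ε : List Bool) :
    (s1 n ε).length ≤ 2 * s + ε.length + 8 := by
  have h1 := length_kw (q := 1) (by omega) (sd (wd (n + 1)) ++ ε)
  have h2 := length_wd_succ h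
  rw [List.length_append, sd_length] at h1
  unfold s1
  omega

theorem length_s2 {q n s : ℕ} (hq : q < 32) (h : n < 2 ^ s) (ε j : List Bool) :
    (s2 q n ε j).length ≤ 2 * s + 2 * ε.length + j.length + 9 := by
  have h1 := length_kw hq (sd (wd (n + 1)) ++ (sd ε ++ j))
  have h2 := length_wd_succ h
  rw [List.length_append, List.length_append, sd_length, sd_length] at h1
  unfold s2
  omega

theorem length_s0 {x n e : ℕ} (hx : x < 2 ^ e) (hn : n < 2 ^ e) :
    (s0 x n).length ≤ 2 * e + 7 := by
  have h1 := pair_lt hx hn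
  have h2 : 1 + Nat.pair x n < 2 ^ (2 * e + 1) := by
    rw [pow_succ]
    have : 0 < 2 ^ (2 * e) := by positivity
    omega
  have := length_ks (q := 0) (by omega) (by omega : 0 < 1 + Nat.pair x n) h2
  unfold s0
  omega

/-! ### The computation -/

theorem run_succ (E : Decomp) (w y d i : List Bool) (t : ℕ) :
    E.run w y d i (t + 1) = if (E.run w y d i t).head? = some true then E.run w y d i t
      else E.next (sd (E.run w y d i t) ++ (sd w[bval (E.addr (E.run w y d i t))]?.toList ++
        (sd y[bval (E.addr (E.run w y d i t))]?.toList ++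
          d[bval (E.addr (E.run w y d i t))]?.toList))) := rfl

theorem run_next {E : Decomp} {w y d i : List Bool} {t : ℕ} {σ : List Bool}
    (h : E.run w y d i t = σ) (hσ : σ.head? ≠ some true) :
    E.run w y d i (t + 1) = E.next (sd σ ++ (sd w[bval (E.addr σ)]?.toList ++
      (sd y[bval (E.addr σ)]?.toList ++ d[bval (E.addr σ)]?.toList))) := by
  rw [run_succ, h, if_neg hσ]

theorem head_ks {q X : ℕ} (hX : 0 < X) : (wd (ks q X)).head? ≠ some true := fun h => by
  have h1 := (head_wd (ks_pos hX)).1 h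
  have h2 := ks_even q X
  omega

theorem head_s0 (x n : ℕ) : (s0 x n).head? ≠ some true := head_ks (by omega)

theorem head_s1 (n : ℕ) (ε : List Bool) : (s1 n ε).head? ≠ some true := by
  unfold s1 kw
  exact head_ks (num_pos _)

theorem head_s2 (q n : ℕ) (ε j : List Bool) : (s2 q n ε j).head? ≠ some true := by
  unfold s2 kw
  exact head_ks (num_pos _)

variable {D E}

theorem run_one {w y d i : List Bool} (hi : i.head? ≠ some false) :
    (ddc D E).run w y d i 1 = s0 (num i) 0 := by
  have hodd : num i % 2 = 1 := by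
    rcases i with _ | ⟨b', u'⟩
    · rfl
    · cases b'
      · exact absurd rfl hi
      · show (true.toNat + 2 * num u') % 2 = 1
        rw [Bool.toNat_true]
        omega
  have h0 : (ddc D E).run w y d i 0 = false :: i := rfl
  have hn : num (false :: i) = 2 * num i := by
    show false.toNat + 2 * num i = _
    rw [Bool.toNat_false, zero_add]
  rw [show (1 : ℕ) = 0 + 1 from rfl, run_next h0 (by simp), ddc_next, hn]
  have h1 : nS (2 * num i) = 0 := by
    unfold nS
    rw [ifz_ne (by omega)]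
  have h2 : ∀ a, nH D (2 * num i) a = ks 0 (1 + Nat.pair (num i) 0) := by
    intro a
    unfold nH
    rw [ifz_ne (by omega), show 2 * num i / 2 = num i by omega]
  rw [h1, if_pos rfl, h2, List.append_nil, wd_pred (ks_pos (by omega))]
  rfl

/-- The computation of the length. -/
theorem run_scan {w y d i : List Bool} (hi : i.head? ≠ some false) {n : ℕ} (hn : n ≤ w.length) :
    (ddc D E).run w y d i (1 + n) = s0 (num i) n := by
  induction n with
  | zero => exact run_one hi
  | succ n ih =>
    rw [← add_assoc, run_next (ih (by omega)) (head_s0 _ _), next_0, addr_0, bval_bits,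
      List.getElem?_eq_getElem (show n < w.length by omega), if_neg (by simp)]

theorem run_start {w y d i : List Bool} (hi : i.head? ≠ some false) :
    (ddc D E).run w y d i (w.length + 2) = s1 w.length (false :: i) := by
  rw [show w.length + 2 = 1 + w.length + 1 by ring, run_next (run_scan hi le_rfl) (head_s0 _ _),
    next_0, addr_0, bval_bits, List.getElem?_eq_none le_rfl, if_pos rfl]

/-- One step of the simulation. -/
theorem run_sim {F : List Bool → List Bool} (hF : D.Is F) {w y d i ε : List Bool} {t : ℕ}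
    (h : (ddc D E).run w y d i t = s1 w.length ε) (hε : ε.head? ≠ some true) :
    (ddc D E).run w y d i (t + 1) = s2 2 w.length ε (E.addr ε) ∧
    (∃ r ≤ 2, (ddc D E).run w y d i (t + 2) = s2 (3 + r) w.length ε (E.addr ε)) ∧
    (ddc D E).run w y d i (t + 3) = s1 w.length (E.next (sd ε ++
      (sd (F w)[bval (E.addr ε)]?.toList ++ (sd y[bval (E.addr ε)]?.toList ++
        d[bval (E.addr ε)]?.toList)))) := by
  have h1 : (ddc D E).run w y d i (t + 1) = s2 2 w.length ε (E.addr ε) := by
    rw [run_next h (head_s1 _ _), next_1 D E hε]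
  set k := bval (E.addr ε) with hk
  set r := D.lt w.length k (codeO w[adr1 D w.length k]?) with hr
  have hr1 : r = codeO (F w)[k]? := by
    rw [hr, ← lett_code, lt_eq hF, lett_code]
  have hr2 : r ≤ 2 := by
    rw [hr1]
    exact codeO_le _
  have h2 : (ddc D E).run w y d i (t + 2) = s2 (3 + r) w.length ε (E.addr ε) := by
    rw [show t + 2 = t + 1 + 1 from rfl, run_next h1 (head_s2 _ _ _ _), next_2, addr_2, bval_bits]
  have h3 : (ddc D E).run w y d i (t + 3) = s1 w.length (E.next (sd ε ++
      (sd (F w)[k]?.toList ++ (sd y[k]?.toList ++ d[k]?.toList)))) := by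
    rw [show t + 3 = t + 2 + 1 from rfl, run_next h2 (head_s2 _ _ _ _), next_3 D E hr2,
      addr_3 D E hr2, ← hk, nA_eq (w' := F w) y d hr1]
  exact ⟨h1, ⟨r, hr2, h2⟩, h3⟩

theorem run_all {F : List Bool → List Bool} (hF : D.Is F) {w y d i : List Bool}
    (hi : i.head? ≠ some false) {t : ℕ}
    (ht : ∀ u < t, (E.run (F w) y d i u).head? ≠ some true) :
    (ddc D E).run w y d i (w.length + 2 + 3 * t) = s1 w.length (E.run (F w) y d i t) := by
  induction t with
  | zero => exact run_start hi
  | succ t ih =>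
    rw [show w.length + 2 + 3 * (t + 1) = w.length + 2 + 3 * t + 3 by ring,
      (run_sim hF (ih fun u hu => ht u (by omega)) (ht t (by omega))).2.2,
      run_next rfl (ht t (by omega))]

/-- A state and its address are short. -/
def Sh (α σ : List Bool) (b : ℕ) : Prop := σ.length ≤ b ∧ α.length ≤ b

theorem sh_scan {w y d i : List Bool} {a s : ℕ} (hs : w.length < 2 ^ s)
    (hi : i.head? ≠ some false) (ha : i.length + 1 ≤ a) {t : ℕ} (ht : t ≤ w.length + 1) :
    Sh ((ddc D E).addr ((ddc D E).run w y d i t)) ((ddc D E).run w y d i t)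
      (2 * (a + s) + 7) := by
  rcases Nat.eq_zero_or_pos t with rfl | ht0
  · have h0 : (ddc D E).run w y d i 0 = false :: i := rfl
    rw [h0]
    refine ⟨?_, ?_⟩
    · rw [List.length_cons]
      omega
    · have hodd : num (false :: i) % 4 ≠ 0 := by
        show (false.toNat + 2 * num i) % 4 ≠ 0
        rw [Bool.toNat_false]
        rcases i with _ | ⟨b', u'⟩
        · show (0 + 2 * 1) % 4 ≠ 0
          norm_num
        · cases b'
          · exact absurd rfl hi
          · show (0 + 2 * (true.toNat + 2 * num u')) % 4 ≠ 0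
            rw [Bool.toNat_true]
            omega
      rw [ddc_addr]
      unfold aF
      rw [ifz_ne hodd]
      show (wd 1).length ≤ _
      rw [wd_one]
      exact Nat.zero_le _
  · obtain ⟨n, rfl⟩ : ∃ n, t = 1 + n := ⟨t - 1, by omega⟩
    rw [run_scan hi (by omega), addr_0]
    have h1 : num i < 2 ^ (a + s) :=
      (num_lt i).trans_le (Nat.pow_le_pow_right (by norm_num) (by omega))
    have h2 : n < 2 ^ (a + s) :=
      (show n ≤ w.length by omega).trans_lt
        (hs.trans_le (Nat.pow_le_pow_right (by norm_num) (by omega)))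
    have h3 := length_s0 h1 h2
    have h4 := bits_length_le h2
    exact ⟨h3, by omega⟩

theorem adr1_le (D : LD) (n u : ℕ) : adr1 D n u ≤ n := by
  unfold adr1
  by_cases h : n < D.pos n u
  · have h1 : lt01 n (D.pos n u) = 1 := by
      unfold lt01
      rw [if_pos h]
    rw [h1, ifz_ne one_ne_zero]
  · have h1 : lt01 n (D.pos n u) = 0 := by
      unfold lt01
      rw [if_neg h]
    rw [h1, ifz_zero]
    omega

theorem says_ddc {F : List Bool → List Bool} (hF : D.Is F) {w y d i v : List Bool} {a s : ℕ}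
    (hs : w.length < 2 ^ s) (hi : i.head? ≠ some false) (hE : E.Says (F w) y a d i v) :
    (ddc D E).Says w y (9 * (a + s + 1)) d i v := by
  classical
  obtain ⟨T, hT, hst, had⟩ := hE
  have hia : i.length + 1 ≤ a := by
    have := hst 0 (Nat.zero_le _)
    exact this
  have hex : ∃ t, (E.run (F w) y d i t).head? = some true := ⟨T, by rw [hT]; rfl⟩
  set T₀ := Nat.find hex with hT₀
  have e1 : (E.run (F w) y d i T₀).head? = some true := Nat.find_spec hex
  have e2 : ∀ t < T₀, (E.run (F w) y d i t).head? ≠ some true := fun t ht => Nat.find_min hex ht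
  have e3 : T₀ ≤ T := Nat.find_min' hex (by rw [hT]; rfl)
  have e4 : E.run (F w) y d i T₀ = true :: true :: v := by
    rw [← Pool.Agent.Helper31.Conv.run_stay (F w) y d i e1 e3, hT]
  have h6 : ∀ t ≤ T₀, (ddc D E).run w y d i (w.length + 2 + 3 * t) =
      s1 w.length (E.run (F w) y d i t) :=
    fun t ht => run_all hF hi fun u hu => e2 u (by omega)
  have h7 : (ddc D E).run w y d i (w.length + 2 + 3 * T₀ + 1) = true :: true :: v := by
    rw [run_next (h6 T₀ le_rfl) (head_s1 _ _), next_1' D E e1, e4]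
  have h8 : ∀ t, t < w.length + 2 + 3 * T₀ + 1 →
      Sh ((ddc D E).addr ((ddc D E).run w y d i t)) ((ddc D E).run w y d i t)
        (9 * (a + s + 1)) := by
    intro t ht
    by_cases h9 : t < w.length + 2
    · have h10 := sh_scan (D := D) (E := E) (y := y) (d := d) hs hi hia
        (show t ≤ w.length + 1 by omega)
      exact ⟨h10.1.trans (by omega), h10.2.trans (by omega)⟩
    · obtain ⟨τ, r, hr, rfl⟩ : ∃ τ r, r < 3 ∧ t = w.length + 2 + 3 * τ + r :=
        ⟨(t - (w.length + 2)) / 3, (t - (w.length + 2)) % 3, Nat.mod_lt _ (by norm_num),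
          by omega⟩
      rcases (show τ < T₀ ∨ τ = T₀ ∧ r = 0 by omega) with h10 | ⟨rfl, rfl⟩
      · have l1 := hst τ (by omega)
        have l2 := had τ (by omega)
        have h11 := h6 τ h10.le
        obtain ⟨c1, ⟨r', hr', c2⟩, -⟩ := run_sim hF h11 (e2 τ h10)
        rcases (show r = 0 ∨ r = 1 ∨ r = 2 by omega) with rfl | rfl | rfl
        · rw [add_zero, h11, addr_1]
          have := length_s1 hs (E.run (F w) y d i τ)
          exact ⟨by omega, Nat.zero_le _⟩
        · rw [c1, addr_2]
          have := length_s2 (q := 2) (by omega) hs (E.run (F w) y d i τ)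
            (E.addr (E.run (F w) y d i τ))
          have h12 := bits_length_le
            ((adr1_le D w.length (bval (E.addr (E.run (F w) y d i τ)))).trans_lt hs)
          exact ⟨by omega, by omega⟩
        · rw [c2, addr_3 D E hr']
          have := length_s2 (q := 3 + r') (by omega) hs (E.run (F w) y d i τ)
            (E.addr (E.run (F w) y d i τ))
          exact ⟨by omega, by omega⟩
      · rw [add_zero, h6 T₀ le_rfl, addr_1]
        have l1 := hst T₀ e3
        have := length_s1 hs (E.run (F w) y d i T₀)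
        exact ⟨by omega, Nat.zero_le _⟩
  refine ⟨_, h7, fun t ht => ?_, fun t ht => (h8 t ht).2⟩
  rcases ht.lt_or_eq with ht | rfl
  · exact (h8 t ht).1
  · rw [h7, ← e4]
    have := hst T₀ e3
    omega

/-- Decompressors on the words `F w`. -/
theorem gDCL : Pool.Agent.Helper53.UW.GoalDCL := by
  intro E D F hF
  refine ⟨ddc D E, 9, fun w y d i v a s hs hi hE => says_ddc hF ?_ hi hE⟩
  exact (lt_two_pow_log w.length).trans_le (Nat.pow_le_pow_right (by norm_num) hs)

end Pool.Agent.Helper33.UW
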